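import Pool.Agent.Helper10.AB.GoalsF4

/-! # Project AB, packet SPL: splitting of the inner product -/

open MeasureTheory Set Filter Topology
open scoped ContDiff

noncomputable section

namespace Pool.Agent.Helper75.AB.SPL

open Pool.Agent.Helper24.AB Pool.Agent.Helper10.AB

/-! ### The general part -/

section gen

variable {Y : Type} [MeasurableSpace Y] {μ : Measure Y} [SFinite μ]

omit [SFinite μ] in
theorem md_meas (J : Fin 3 → ℤ) {U : Y × (Fin 3 → ℝ) → ℂ}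
    (hU : AEStronglyMeasurable U (μ.prod (volume.restrict T3))) :
    AEStronglyMeasurable (fun y => tm J fun θ => U (y, θ)) μ := by
  have h1 : AEStronglyMeasurable (fun q : Y × (Fin 3 → ℝ) =>
      U q * Complex.exp (-(Complex.I * (Jd J q.2 : ℝ)))) (μ.prod (volume.restrict T3)) := by
    refine hU.mul ?_
    have h2 : Continuous fun θ : Fin 3 → ℝ => Complex.exp (-(Complex.I * (Jd J θ : ℝ))) := by
      unfold Jd
      fun_prop
    exact (h2.measurable.comp measurable_snd).aestronglyMeasurable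
  have h3 := h1.integral_prod_right'
  unfold tm
  exact h3.const_mul _

theorem norm_mul_conj (z w : ℂ) : ‖z * (starRingEnd ℂ) w‖ ≤ ‖z‖ ^ 2 + ‖w‖ ^ 2 := by
  rw [norm_mul, RCLike.norm_conj]
  nlinarith [sq_nonneg (‖z‖ - ‖w‖), sq_nonneg ‖z‖, sq_nonneg ‖w‖]

omit [SFinite μ] in
theorem md_bound (hP : S_PARS) {U : Y × (Fin 3 → ℝ) → ℂ}
    (cU : ∀ᵐ y ∂μ, CPer fun θ => U (y, θ)) :
    ∀ᵐ y ∂μ, HasSum (fun J : Fin 3 → ℤ => ‖tm J fun θ => U (y, θ)‖ ^ 2)
      (((2 * Real.pi) ^ 3)⁻¹ * ∫ θ in T3, ‖U (y, θ)‖ ^ 2) := by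
  filter_upwards [cU] with y hy
  exact hP.2 _ hy

omit [SFinite μ] in
theorem N_int {U : Y × (Fin 3 → ℝ) → ℂ}
    (hU2 : Integrable (fun q => ‖U q‖ ^ 2) (μ.prod (volume.restrict T3))) :
    Integrable (fun y => ((2 * Real.pi) ^ 3)⁻¹ * ∫ θ in T3, ‖U (y, θ)‖ ^ 2) μ :=
  (hU2.integral_prod_left).const_mul _

omit [SFinite μ] in
theorem md_int (hP : S_PARS) {U : Y × (Fin 3 → ℝ) → ℂ}
    (hU : AEStronglyMeasurable U (μ.prod (volume.restrict T3)))
    (hU2 : Integrable (fun q => ‖U q‖ ^ 2) (μ.prod (volume.restrict T3)))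
    (cU : ∀ᵐ y ∂μ, CPer fun θ => U (y, θ)) (J : Fin 3 → ℤ) :
    Integrable (fun y => ‖tm J fun θ => U (y, θ)‖ ^ 2) μ := by
  refine (N_int hU2).mono' ((md_meas J hU).norm.pow 2) ?_
  filter_upwards [md_bound hP cU] with y hy
  rw [Real.norm_of_nonneg (by positivity)]
  exact le_hasSum hy J fun i _ => by positivity

omit [SFinite μ] in
theorem md_sum (hP : S_PARS) {U : Y × (Fin 3 → ℝ) → ℂ}
    (hU : AEStronglyMeasurable U (μ.prod (volume.restrict T3)))
    (hU2 : Integrable (fun q => ‖U q‖ ^ 2) (μ.prod (volume.restrict T3)))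
    (cU : ∀ᵐ y ∂μ, CPer fun θ => U (y, θ)) :
    Summable (fun J : Fin 3 → ℤ => ∫ y, ‖tm J fun θ => U (y, θ)‖ ^ 2 ∂μ) := by
  refine summable_of_sum_le (fun J => integral_nonneg fun y => by positivity)
    (c := ∫ y, (((2 * Real.pi) ^ 3)⁻¹ * ∫ θ in T3, ‖U (y, θ)‖ ^ 2) ∂μ) fun F => ?_
  rw [← integral_finsetSum F fun J _ => md_int hP hU hU2 cU J]
  refine integral_mono_ae (integrable_finsetSum F fun J _ => md_int hP hU hU2 cU J)
    (N_int hU2) ?_
  filter_upwards [md_bound hP cU] with y hy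
  exact sum_le_hasSum F (fun i _ => by positivity) hy

theorem spl_gen (hP : S_PARS) {U V : Y × (Fin 3 → ℝ) → ℂ}
    (hU : AEStronglyMeasurable U (μ.prod (volume.restrict T3)))
    (hU2 : Integrable (fun q => ‖U q‖ ^ 2) (μ.prod (volume.restrict T3)))
    (cU : ∀ᵐ y ∂μ, CPer fun θ => U (y, θ))
    (hV : AEStronglyMeasurable V (μ.prod (volume.restrict T3)))
    (hV2 : Integrable (fun q => ‖V q‖ ^ 2) (μ.prod (volume.restrict T3)))
    (cV : ∀ᵐ y ∂μ, CPer fun θ => V (y, θ)) :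
    Summable (fun J : Fin 3 → ℤ =>
      ‖∫ y, (tm J fun θ => U (y, θ)) * (starRingEnd ℂ) (tm J fun θ => V (y, θ)) ∂μ‖) ∧
    ∫ q, U q * (starRingEnd ℂ) (V q) ∂(μ.prod (volume.restrict T3)) =
      (((2 * Real.pi) ^ 3 : ℝ) : ℂ) * ∑' J : Fin 3 → ℤ,
        ∫ y, (tm J fun θ => U (y, θ)) * (starRingEnd ℂ) (tm J fun θ => V (y, θ)) ∂μ := by
  have hm : ∀ J, AEStronglyMeasurable (fun y => (tm J fun θ => U (y, θ)) *
      (starRingEnd ℂ) (tm J fun θ => V (y, θ))) μ := fun J =>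
    (md_meas J hU).mul ((Complex.continuous_conj.comp_aestronglyMeasurable (md_meas J hV)))
  have hi : ∀ J, Integrable (fun y => (tm J fun θ => U (y, θ)) *
      (starRingEnd ℂ) (tm J fun θ => V (y, θ))) μ := fun J => by
    refine ((md_int hP hU hU2 cU J).add (md_int hP hV hV2 cV J)).mono' (hm J) ?_
    exact Eventually.of_forall fun y => norm_mul_conj _ _
  have hs : Summable (fun J : Fin 3 → ℤ => ∫ y, ‖(tm J fun θ => U (y, θ)) *
      (starRingEnd ℂ) (tm J fun θ => V (y, θ))‖ ∂μ) := by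
    refine Summable.of_nonneg_of_le (fun J => integral_nonneg fun y => norm_nonneg _)
      (fun J => ?_) ((md_sum hP hU hU2 cU).add (md_sum hP hV hV2 cV))
    rw [← integral_add (md_int hP hU hU2 cU J) (md_int hP hV hV2 cV J)]
    exact integral_mono (hi J).norm ((md_int hP hU hU2 cU J).add (md_int hP hV hV2 cV J))
      fun y => norm_mul_conj _ _
  refine ⟨Summable.of_nonneg_of_le (fun J => norm_nonneg _)
    (fun J => norm_integral_le_integral_norm _) hs, ?_⟩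
  have h1 := hasSum_integral_of_summable_integral_norm hi hs
  rw [h1.tsum_eq, ← integral_const_mul]
  have hUV : Integrable (fun q => U q * (starRingEnd ℂ) (V q))
      (μ.prod (volume.restrict T3)) := by
    refine (hU2.add hV2).mono' (hU.mul (Complex.continuous_conj.comp_aestronglyMeasurable hV)) ?_
    exact Eventually.of_forall fun q => norm_mul_conj _ _
  rw [integral_prod _ hUV]
  refine integral_congr_ae ?_
  filter_upwards [cU, cV] with y hy1 hy2
  have h2 := (hP.1 _ _ hy1 hy2).tsum_eq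
  change ∫ θ in T3, U (y, θ) * (starRingEnd ℂ) (V (y, θ)) = _
  have h3 : (((2 * Real.pi) ^ 3 : ℝ) : ℂ) * ∑' J : Fin 3 → ℤ,
      (tm J fun θ => U (y, θ)) * (starRingEnd ℂ) (tm J fun θ => V (y, θ)) =
      ∫ θ in T3, U (y, θ) * (starRingEnd ℂ) (V (y, θ)) := by
    rw [h2, ← mul_assoc, ← Complex.ofReal_mul, mul_inv_cancel₀ (by positivity),
      Complex.ofReal_one, one_mul]
  exact h3.symm

end gen

/-! ### The geometric part -/

section geo

variable {a A δ₀ ρ₀ : ℝ} {s : ℝ → ℝ} {p : ℂ → ℝ} {B : BlockData}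

theorem Atl_eq (hD : Dat a A δ₀ ρ₀ s p B) {x : ℝ} (hx : |x| < a) :
    Atl a A s x = s x ^ 2 / (a ^ 2 - x ^ 2) := by
  have ha := hD.prof.a_pos
  have h0 : 0 < a ^ 2 - x ^ 2 := by
    have := sq_lt_sq' (abs_lt.1 hx).1 (abs_lt.1 hx).2
    linarith
  unfold Atl
  split_ifs with h
  · rfl
  · rw [hD.prof.edge x (not_lt.1 h) hx, div_pow, mul_pow, mul_pow, Real.sq_sqrt h0.le]
    field_simp
    ring

theorem Atl_cont (hD : Dat a A δ₀ ρ₀ s p B) : ContinuousOn (Atl a A s) (Ioo (-a) a) := by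
  have h1 : ContinuousOn (fun x => s x ^ 2 / (a ^ 2 - x ^ 2)) (Ioo (-a) a) := by
    refine (hD.prof.smooth.continuousOn.pow 2).div (by fun_prop) fun x hx => ?_
    have := sq_lt_sq' hx.1 hx.2
    linarith
  exact h1.congr fun x hx => Atl_eq hD (abs_lt.2 hx)

theorem Atl_pos (hD : Dat a A δ₀ ρ₀ s p B) {x : ℝ} (hx : |x| < a) : 0 < Atl a A s x := by
  rw [Atl_eq hD hx]
  have h1 := hD.prof.pos x (abs_lt.1 hx)
  have := sq_lt_sq' (abs_lt.1 hx).1 (abs_lt.1 hx).2
  have h0 : 0 < a ^ 2 - x ^ 2 := by linarith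
  positivity

theorem Atl_nonneg (hD : Dat a A δ₀ ρ₀ s p B) (x : ℝ) : 0 ≤ Atl a A s x := by
  unfold Atl
  split_ifs with h
  · have ha := hD.prof.a_pos
    have h' : |x| < a := h.trans_le (by linarith)
    have := sq_lt_sq' (abs_lt.1 h').1 (abs_lt.1 h').2
    have h0 : 0 < a ^ 2 - x ^ 2 := by linarith
    positivity
  · positivity

theorem p_cont (hD : Dat a A δ₀ ρ₀ s p B) : ContinuousOn p (strip a) := by
  refine hD.pot.smooth.continuousOn.mono fun w hw => ?_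
  have ha := hD.prof.a_pos
  have hw' : |w.re| < a := hw
  change |w.re| < 3 * a / 2
  linarith

theorem XX_cont (hD : Dat a A δ₀ ρ₀ s p B) :
    ContinuousOn (XX a A s p) {y : YY | |y.1.re| < a} := by
  have h1 : ContinuousOn (fun y : YY => Atl a A s y.1.re) {y : YY | |y.1.re| < a} :=
    (Atl_cont hD).comp (by fun_prop) fun y hy => abs_lt.1 hy
  have h2 : ContinuousOn (fun y : YY => Real.sqrt (Atl a A s y.1.re)) {y : YY | |y.1.re| < a} :=
    h1.sqrt
  have h3 : ContinuousOn (fun y : YY => p y.1) {y : YY | |y.1.re| < a} :=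
    (p_cont hD).comp (by fun_prop) fun y hy => hy
  have e1 : Continuous fun y : YY => Real.exp (kap * y.1.im) := by fun_prop
  have e2 : Continuous fun y : YY => Real.exp (-(kap * y.1.im)) * (2 * A * y.2 1) := by fun_prop
  have e3 : Continuous fun y : YY => y.2 0 := by fun_prop
  have e4 : Continuous fun y : YY => 2 * A * y.2 2 := by fun_prop
  have e5 : ContinuousOn (fun y : YY => Real.exp (kap * y.1.im) *
      (A + Real.sqrt (Atl a A s y.1.re) * y.2 0) - p y.1) {y : YY | |y.1.re| < a} :=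
    (e1.continuousOn.mul (continuousOn_const.add (h2.mul e3.continuousOn))).sub h3
  rw [continuousOn_pi]
  intro i
  fin_cases i
  · change ContinuousOn (fun y : YY => ph * (Real.exp (kap * y.1.im) *
      (A + Real.sqrt (Atl a A s y.1.re) * y.2 0) - p y.1) +
      ph' * (Real.exp (-(kap * y.1.im)) * (2 * A * y.2 1))) _
    exact (continuousOn_const.mul e5).add (continuousOn_const.mul e2.continuousOn)
  · change ContinuousOn (fun y : YY => (Real.exp (kap * y.1.im) *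
      (A + Real.sqrt (Atl a A s y.1.re) * y.2 0) - p y.1) +
      Real.exp (-(kap * y.1.im)) * (2 * A * y.2 1)) _
    exact e5.add e2.continuousOn
  · exact e4.continuousOn

theorem Pt_cont (hD : Dat a A δ₀ ρ₀ s p B) (hE : S_EQV) :
    ContinuousOn (fun q : YY × (Fin 3 → ℝ) => Pt a A s p q.1 q.2)
      {q : YY × (Fin 3 → ℝ) | |q.1.1.re| < a} := by
  obtain ⟨-, -, -, -, -, -, -, h8, -⟩ := hE a A δ₀ ρ₀ s p B hD
  have hX : ContinuousOn (fun q : YY × (Fin 3 → ℝ) => XX a A s p q.1)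
      {q : YY × (Fin 3 → ℝ) | |q.1.1.re| < a} :=
    (XX_cont hD).comp (by fun_prop) fun q hq => hq
  have hX' := continuousOn_pi.1 hX
  have hc : ∀ i : Fin 3, ContinuousOn (fun q : YY × (Fin 3 → ℝ) =>
      (⟨XX a A s p q.1 i, q.2 i⟩ : ℂ)) {q : YY × (Fin 3 → ℝ) | |q.1.1.re| < a} := by
    intro i
    have h1 : (fun q : YY × (Fin 3 → ℝ) => (⟨XX a A s p q.1 i, q.2 i⟩ : ℂ)) =
        fun q => ((XX a A s p q.1 i : ℝ) : ℂ) + ((q.2 i : ℝ) : ℂ) * Complex.I := by
      funext q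
      apply Complex.ext <;> simp
    rw [h1]
    refine ContinuousOn.add (Complex.continuous_ofReal.comp_continuousOn (hX' i)) ?_
    fun_prop
  have h9 : (fun q : YY × (Fin 3 → ℝ) => Pt a A s p q.1 q.2) = fun q =>
      ![⟨XX a A s p q.1 0, q.2 0⟩, ⟨XX a A s p q.1 1, q.2 1⟩, ⟨XX a A s p q.1 2, q.2 2⟩, q.1.1] :=
    funext fun q => h8 q.1 q.2
  rw [h9, continuousOn_pi]
  intro i
  fin_cases i
  · exact hc 0
  · exact hc 1
  · exact hc 2
  · change ContinuousOn (fun q : YY × (Fin 3 → ℝ) => q.1.1) _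
    fun_prop

theorem cper (hD : Dat a A δ₀ ρ₀ s p B) (hE : S_EQV) {G : V4 → ℂ}
    (hG : ContinuousOn G (Omt a A s p)) (hi : ∀ P ∈ Omt a A s p, ∀ k, G (tE k P) = G P)
    {y : YY} (hy : y ∈ YS a (strip a)) : CPer fun θ => G (Pt a A s p y θ) := by
  have h9 := Pt_cont hD hE
  obtain ⟨-, h2, -, -, h5, -, -, -, -⟩ := hE a A δ₀ ρ₀ s p B hD
  refine ⟨?_, fun θ k => ?_⟩
  · refine hG.comp_continuous (f := fun θ => Pt a A s p y θ) ?_ fun θ => (h5 y θ).2 hy
    exact h9.comp_continuous (f := fun θ : Fin 3 → ℝ => (y, θ)) (by fun_prop) fun θ => hy.1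
  · change G (Pt a A s p y (tr2 θ k)) = G (Pt a A s p y θ)
    rw [← h2 y θ k]
    exact hi _ ((h5 y θ).2 hy) k

theorem rfun_cont (hD : Dat a A δ₀ ρ₀ s p B) :
    ContinuousOn (rfun a A s p) {P : V4 | |(P 3).re| < a} := by
  have h1 : ContinuousOn (fun P : V4 => Atl a A s (P 3).re) {P : V4 | |(P 3).re| < a} :=
    (Atl_cont hD).comp (by fun_prop) fun P hP => abs_lt.1 hP
  have h3 : ContinuousOn (fun P : V4 => p (P 3)) {P : V4 | |(P 3).re| < a} :=
    (p_cont hD).comp (by fun_prop) fun P hP => hP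
  have e1 : Continuous fun P : V4 => Real.exp (-(kap * (P 3).im)) := by fun_prop
  have e2 : Continuous fun P : V4 => xp P := by
    unfold xp
    fun_prop
  have h4 : ContinuousOn (fun P : V4 => ypf p P) {P : V4 | |(P 3).re| < a} :=
    e1.continuousOn.mul (e2.continuousOn.add h3)
  have h5 : Continuous fun P : V4 => ymf P := by
    unfold ymf xm
    fun_prop
  have h6 : Continuous fun P : V4 => x0 P := by
    unfold x0
    fun_prop
  have h7 : ContinuousOn (fun P : V4 => (ypf p P - A) ^ 2 / Atl a A s (P 3).re)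
      {P : V4 | |(P 3).re| < a} := by
    refine ContinuousOn.div ((h4.sub continuousOn_const).pow 2) h1 fun P hP => ?_
    exact (Atl_pos hD hP).ne'
  unfold rfun
  refine (h7.add ?_).sub ?_
  · exact (((h5.pow 2).add (h6.pow 2)).div_const _).continuousOn
  · fun_prop

theorem Omt_open (hD : Dat a A δ₀ ρ₀ s p B) : IsOpen (Omt a A s p) := by
  have ha := hD.prof.a_pos
  have h1 : Omt a A s p = {P : V4 | |(P 3).re| < a} ∩ rfun a A s p ⁻¹' Iio 0 := by
    ext P
    constructor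
    · rintro ⟨-, h2⟩
      refine ⟨?_, h2⟩
      have h3 : 0 ≤ (ypf p P - A) ^ 2 / Atl a A s (P 3).re :=
        div_nonneg (sq_nonneg _) (Atl_nonneg hD _)
      have h4 : 0 ≤ (ymf P ^ 2 + x0 P ^ 2) / (4 * A ^ 2) := by positivity
      unfold rfun at h2
      have h5 : (P 3).re ^ 2 < a ^ 2 := by linarith
      exact abs_lt_of_sq_lt_sq h5 ha.le
    · rintro ⟨h2, h3⟩
      have h2' : |(P 3).re| < a := h2
      exact ⟨by linarith, h3⟩
  rw [h1]
  refine (rfun_cont hD).isOpen_inter_preimage ?_ isOpen_Iio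
  exact isOpen_lt (by fun_prop) continuous_const

theorem YS_meas (a : ℝ) : MeasurableSet (YS a (cell a)) := by
  have h1 : Measurable fun y : YY => |y.1.re| := by fun_prop
  have h2 : Measurable fun y : YY => y.1.im := by fun_prop
  have h3 : Measurable fun y : YY => y.2 0 ^ 2 + y.2 1 ^ 2 + y.2 2 ^ 2 := by fun_prop
  have h4 : Measurable fun y : YY => a ^ 2 - y.1.re ^ 2 := by fun_prop
  have h5 : YS a (cell a) = ((({y : YY | |y.1.re| < a} ∩ {y : YY | 0 ≤ y.1.im}) ∩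
      {y : YY | y.1.im < 2 * Real.pi}) ∩
      {y : YY | y.2 0 ^ 2 + y.2 1 ^ 2 + y.2 2 ^ 2 < a ^ 2 - y.1.re ^ 2}) := by
    ext y
    constructor
    · rintro ⟨⟨h1, h2, h3⟩, h4⟩
      exact ⟨⟨⟨h1, h2⟩, h3⟩, h4⟩
    · rintro ⟨⟨⟨h1, h2⟩, h3⟩, h4⟩
      exact ⟨⟨h1, h2, h3⟩, h4⟩
  rw [h5]
  exact (((measurableSet_lt h1 measurable_const).inter
    (measurableSet_le measurable_const h2)).inter (measurableSet_lt h2 measurable_const)).inter
    (measurableSet_lt h3 h4)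

theorem ae_YS (a A : ℝ) (s : ℝ → ℝ) : ∀ᵐ y ∂(muY a A s (cell a)), y ∈ YS a (strip a) := by
  have h1 : ∀ᵐ y ∂((volume : Measure YY).restrict (YS a (cell a))), y ∈ YS a (cell a) :=
    ae_restrict_mem (YS_meas a)
  have h2 : ∀ᵐ y ∂(muY a A s (cell a)), y ∈ YS a (cell a) :=
    (withDensity_absolutelyContinuous _ _).ae_le h1
  filter_upwards [h2] with y hy
  exact ⟨hy.1.1, hy.2⟩

instance : SFinite (muY a A s (cell a)) := by
  unfold muY
  infer_instance

theorem key (hD : Dat a A δ₀ ρ₀ s p B) (hM : S_MAP) (hE : S_EQV) (K : V4 → ℂ)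
    (cK : ContinuousOn K (Omt a A s p)) (iK : ∀ P ∈ Omt a A s p, ∀ k, K (tE k P) = K P)
    (K2 : IntegrableOn (fun P => ‖K P‖ ^ 2) (Fund a A s p)) :
    AEStronglyMeasurable K (Measure.map (fun q : YY × (Fin 3 → ℝ) => Pt a A s p q.1 q.2)
      ((muY a A s (cell a)).prod (volume.restrict T3))) ∧
    AEStronglyMeasurable (fun q : YY × (Fin 3 → ℝ) => K (Pt a A s p q.1 q.2))
      ((muY a A s (cell a)).prod (volume.restrict T3)) ∧
    Integrable (fun q : YY × (Fin 3 → ℝ) => ‖K (Pt a A s p q.1 q.2)‖ ^ 2)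
      ((muY a A s (cell a)).prod (volume.restrict T3)) ∧
    ∀ᵐ y ∂(muY a A s (cell a)), CPer fun θ => K (Pt a A s p y θ) := by
  obtain ⟨⟨hΦ, hmap⟩, -⟩ := hM a A δ₀ ρ₀ s p B hD
  have hF : Fund a A s p ⊆ Omt a A s p := fun P hP => hP.1
  have h1 : AEStronglyMeasurable K (volume.restrict (Fund a A s p)) :=
    (cK.aestronglyMeasurable (Omt_open hD).measurableSet).mono_measure
      (Measure.restrict_mono hF le_rfl)
  have h3 : AEStronglyMeasurable K (Measure.map (fun q : YY × (Fin 3 → ℝ) => Pt a A s p q.1 q.2)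
      ((muY a A s (cell a)).prod (volume.restrict T3))) := by
    rw [hmap]
    exact h1
  refine ⟨h3, h3.comp_aemeasurable hΦ, ?_, ?_⟩
  · have h4 : Integrable (fun P => ‖K P‖ ^ 2)
        (Measure.map (fun q : YY × (Fin 3 → ℝ) => Pt a A s p q.1 q.2)
        ((muY a A s (cell a)).prod (volume.restrict T3))) := by
      rw [hmap]
      exact K2
    exact (integrable_map_measure h4.aestronglyMeasurable hΦ).1 h4
  · filter_upwards [ae_YS a A s] with y hy
    exact cper hD hE cK iK hy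

theorem fin (hP : S_PARS) (hM : S_MAP) (hE : S_EQV) (hD : Dat a A δ₀ ρ₀ s p B) (G h : V4 → ℂ)
    (cG : ContinuousOn G (Omt a A s p)) (ch : ContinuousOn h (Omt a A s p))
    (iG : ∀ P ∈ Omt a A s p, ∀ k, G (tE k P) = G P)
    (ih : ∀ P ∈ Omt a A s p, ∀ k, h (tE k P) = h P)
    (G2 : IntegrableOn (fun P => ‖G P‖ ^ 2) (Fund a A s p))
    (h2 : IntegrableOn (fun P => ‖h P‖ ^ 2) (Fund a A s p)) :
    (∀ J, Integrable (fun y => ‖tm J fun θ => G (Pt a A s p y θ)‖ ^ 2) (muY a A s (cell a)) ∧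
      Integrable (fun y => ‖tm J fun θ => h (Pt a A s p y θ)‖ ^ 2) (muY a A s (cell a))) ∧
    Summable (fun J : Fin 3 → ℤ =>
      ∫ y, ‖tm J fun θ => h (Pt a A s p y θ)‖ ^ 2 ∂(muY a A s (cell a))) ∧
    Summable (fun J : Fin 3 → ℤ =>
      ‖∫ y, (tm J fun θ => G (Pt a A s p y θ)) *
        (starRingEnd ℂ) (tm J fun θ => h (Pt a A s p y θ)) ∂(muY a A s (cell a))‖) ∧
    ∫ P in Fund a A s p, G P * (starRingEnd ℂ) (h P) = (((2 * Real.pi) ^ 3 : ℝ) : ℂ) *
      ∑' J : Fin 3 → ℤ, ∫ y, (tm J fun θ => G (Pt a A s p y θ)) *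
        (starRingEnd ℂ) (tm J fun θ => h (Pt a A s p y θ)) ∂(muY a A s (cell a)) := by
  obtain ⟨mG, uG, u2G, pG⟩ := key hD hM hE G cG iG G2
  obtain ⟨mh, uh, u2h, ph⟩ := key hD hM hE h ch ih h2
  obtain ⟨⟨hΦ, hmap⟩, -⟩ := hM a A δ₀ ρ₀ s p B hD
  obtain ⟨U, hU⟩ : ∃ U : YY × (Fin 3 → ℝ) → ℂ, U = fun q => G (Pt a A s p q.1 q.2) := ⟨_, rfl⟩
  obtain ⟨V, hV⟩ : ∃ V : YY × (Fin 3 → ℝ) → ℂ, V = fun q => h (Pt a A s p q.1 q.2) := ⟨_, rfl⟩
  have eU : ∀ q, G (Pt a A s p q.1 q.2) = U q := fun q => by rw [hU]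
  have eV : ∀ q, h (Pt a A s p q.1 q.2) = V q := fun q => by rw [hV]
  have eU' : ∀ y θ, G (Pt a A s p y θ) = U (y, θ) := fun y θ => by rw [hU]
  have eV' : ∀ y θ, h (Pt a A s p y θ) = V (y, θ) := fun y θ => by rw [hV]
  have h5 : ∫ P in Fund a A s p, G P * (starRingEnd ℂ) (h P) =
      ∫ q, U q * (starRingEnd ℂ) (V q)
        ∂((muY a A s (cell a)).prod (volume.restrict T3)) := by
    have h6 := integral_map (f := fun P => G P * (starRingEnd ℂ) (h P)) hΦ
      (mG.mul (Complex.continuous_conj.comp_aestronglyMeasurable mh))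
    rw [← hmap, h6, hU, hV]
  simp only [eU] at uG u2G
  simp only [eV] at uh u2h
  simp only [eU'] at pG
  simp only [eV'] at ph
  simp only [eU', eV']
  have hgen := spl_gen hP uG u2G pG uh u2h ph
  refine ⟨fun J => ⟨md_int hP uG u2G pG J, md_int hP uh u2h ph J⟩, md_sum hP uh u2h ph,
    hgen.1, ?_⟩
  rw [h5]
  exact hgen.2

end geo

theorem spl : S_PARS → S_MAP → S_EQV → S_SPL := fun hP hM hE _ _ _ _ _ _ _ hD G h cG ch iG ih G2 h2 =>
  fin hP hM hE hD G h cG ch iG ih G2 h2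

end Pool.Agent.Helper75.AB.SPL
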