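import Pool.Agent.Helper15.AB.GoalsG

/-! # Project AB, packet PARI: smoothness of parametric interval integrals -/

open MeasureTheory Set Filter Topology
open scoped ContDiff

noncomputable section

namespace Pool.Agent.Helper75.AB

open Pool.Agent.Helper15.AB

/-- Local uniform bound near a slice `{x₀} × [a,b]`. -/
theorem pari_bound {E G : Type} [NormedAddCommGroup E] [NormedSpace ℝ E]
    [NormedAddCommGroup G] {U : Set E} {F : E × ℝ → G} (a b : ℝ) (hU : IsOpen U)
    (hF : ContinuousOn F (U ×ˢ (univ : Set ℝ))) {x₀ : E} (hx₀ : x₀ ∈ U) :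
    ∃ C : ℝ, ∀ᶠ x in 𝓝 x₀, x ∈ U ∧ ∀ t ∈ uIcc a b, ‖F (x, t)‖ ≤ C := by
  have hO : IsOpen (U ×ˢ (univ : Set ℝ)) := hU.prod isOpen_univ
  have hc : ContinuousOn (fun t : ℝ => F (x₀, t)) (uIcc a b) := by
    refine hF.comp (by fun_prop) ?_
    intro t _
    exact ⟨hx₀, mem_univ _⟩
  obtain ⟨C, hC⟩ := isCompact_uIcc.exists_bound_of_continuousOn hc
  refine ⟨C + 1, ?_⟩
  have h1 : ∀ᶠ x in 𝓝 x₀, ∀ t ∈ uIcc a b, ‖F (x, t)‖ ≤ C + 1 := by
    refine isCompact_uIcc.eventually_forall_of_forall_eventually ?_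
    intro t ht
    have hct : ContinuousAt F (x₀, t) := hF.continuousAt (hO.mem_nhds ⟨hx₀, mem_univ _⟩)
    have h2 : ContinuousAt (fun z : E × ℝ => ‖F z‖) (x₀, t) := hct.norm
    have h3 : ‖F (x₀, t)‖ < C + 1 := by
      have := hC t ht
      linarith
    have h4 : ∀ᶠ z in 𝓝 (x₀, t), ‖F z‖ < C + 1 := h2.eventually_lt_const h3
    filter_upwards [h4] with z hz
    exact hz.le
  filter_upwards [h1, hU.mem_nhds hx₀] with x hx hxU
  exact ⟨hxU, hx⟩

theorem pari_slice {E G : Type} [NormedAddCommGroup E] [NormedSpace ℝ E]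
    [NormedAddCommGroup G] {U : Set E} {F : E × ℝ → G}
    (hF : ContinuousOn F (U ×ˢ (univ : Set ℝ))) {x : E} (hx : x ∈ U) :
    Continuous (fun t : ℝ => F (x, t)) := by
  rw [← continuousOn_univ]
  refine hF.comp (by fun_prop) ?_
  intro t _
  exact ⟨hx, mem_univ _⟩

theorem pari_cont {E G : Type} [NormedAddCommGroup E] [NormedSpace ℝ E]
    [NormedAddCommGroup G] [NormedSpace ℝ G] {U : Set E} {F : E × ℝ → G} (a b : ℝ)
    (hU : IsOpen U) (hF : ContinuousOn F (U ×ˢ (univ : Set ℝ))) :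
    ContinuousOn (fun x => ∫ θ in a..b, F (x, θ)) U := by
  intro x₀ hx₀
  apply ContinuousAt.continuousWithinAt
  obtain ⟨C, hC⟩ := pari_bound a b hU hF hx₀
  refine intervalIntegral.continuousAt_of_dominated_interval (bound := fun _ => C) ?_ ?_ ?_ ?_
  · filter_upwards [hC] with x hx
    exact (pari_slice hF hx.1).aestronglyMeasurable
  · filter_upwards [hC] with x hx
    refine Eventually.of_forall fun t ht => ?_
    exact hx.2 t (uIoc_subset_uIcc ht)
  · exact intervalIntegrable_const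
  · refine Eventually.of_forall fun t _ => ?_
    have hO : IsOpen (U ×ˢ (univ : Set ℝ)) := hU.prod isOpen_univ
    have hct : ContinuousAt F (x₀, t) := hF.continuousAt (hO.mem_nhds ⟨hx₀, mem_univ _⟩)
    exact ContinuousAt.comp (f := fun x : E => (x, t)) (g := F) (x := x₀) hct (by fun_prop)

/-- the partial derivative in the first variable. -/
def pD {E G : Type} [NormedAddCommGroup E] [NormedSpace ℝ E]
    [NormedAddCommGroup G] [NormedSpace ℝ G] (F : E × ℝ → G) : E × ℝ → (E →L[ℝ] G) :=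
  fun z => (fderiv ℝ F z).comp (ContinuousLinearMap.inl ℝ E ℝ)

theorem pari_deriv {E G : Type} [NormedAddCommGroup E] [NormedSpace ℝ E]
    [NormedAddCommGroup G] [NormedSpace ℝ G] {U : Set E} {F : E × ℝ → G} (a b : ℝ)
    (hU : IsOpen U) (hF : ContDiffOn ℝ 1 F (U ×ˢ (univ : Set ℝ))) {x₀ : E} (hx₀ : x₀ ∈ U) :
    HasFDerivAt (fun x => ∫ θ in a..b, F (x, θ)) (∫ θ in a..b, pD F (x₀, θ)) x₀ := by
  have hO : IsOpen (U ×ˢ (univ : Set ℝ)) := hU.prod isOpen_univ
  have hcF : ContinuousOn F (U ×ˢ (univ : Set ℝ)) := hF.continuousOn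
  have hcD : ContinuousOn (pD F) (U ×ˢ (univ : Set ℝ)) := by
    have h1 : ContinuousOn (fderiv ℝ F) (U ×ˢ (univ : Set ℝ)) :=
      hF.continuousOn_fderiv_of_isOpen hO le_rfl
    exact h1.clm_comp continuousOn_const
  obtain ⟨C, hC⟩ := pari_bound a b hU hcD hx₀
  refine intervalIntegral.hasFDerivAt_integral_of_dominated_of_fderiv_le
    (F := fun x t => F (x, t)) (F' := fun x t => pD F (x, t)) (bound := fun _ => C)
    (s := {x | x ∈ U ∧ ∀ t ∈ uIcc a b, ‖pD F (x, t)‖ ≤ C}) hC ?_ ?_ ?_ ?_ ?_ ?_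
  · filter_upwards [hC] with x hx
    exact (pari_slice hcF hx.1).aestronglyMeasurable
  · exact (pari_slice hcF hx₀).intervalIntegrable _ _
  · exact (pari_slice hcD hx₀).aestronglyMeasurable
  · refine Eventually.of_forall fun t ht x hx => ?_
    exact hx.2 t (uIoc_subset_uIcc ht)
  · exact intervalIntegrable_const
  · refine Eventually.of_forall fun t _ x hx => ?_
    have hd : HasFDerivAt F (fderiv ℝ F (x, t)) (x, t) := by
      have : DifferentiableAt ℝ F (x, t) :=
        (hF.differentiableOn one_ne_zero).differentiableAt (hO.mem_nhds ⟨hx.1, mem_univ _⟩)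
      exact this.hasFDerivAt
    have hi : HasFDerivAt (fun x : E => (x, t)) (ContinuousLinearMap.inl ℝ E ℝ) x :=
      hasFDerivAt_prodMk_left x t
    exact HasFDerivAt.comp (f := fun x : E => (x, t)) (g := F) x hd hi

theorem pari_nat {E : Type} [NormedAddCommGroup E] [NormedSpace ℝ E] {U : Set E}
    (a b : ℝ) (hU : IsOpen U) (n : ℕ) :
    ∀ {G : Type} [NormedAddCommGroup G] [NormedSpace ℝ G] (F : E × ℝ → G),
      ContDiffOn ℝ n F (U ×ˢ (univ : Set ℝ)) →
        ContDiffOn ℝ n (fun x => ∫ θ in a..b, F (x, θ)) U := by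
  have hO : IsOpen (U ×ˢ (univ : Set ℝ)) := hU.prod isOpen_univ
  induction n with
  | zero =>
    intro G _ _ F hF
    simp only [Nat.cast_zero, contDiffOn_zero] at hF ⊢
    exact pari_cont a b hU hF
  | succ n ih =>
    intro G _ _ F hF
    have hF' : ContDiffOn ℝ ((n : ℕ∞ω) + 1) F (U ×ˢ (univ : Set ℝ)) := by
      simpa using hF
    have h1 : ContDiffOn ℝ 1 F (U ×ˢ (univ : Set ℝ)) :=
      hF'.of_le (by
        have : (1 : ℕ∞ω) ≤ (n : ℕ∞ω) + 1 := le_add_self
        exact this)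
    have hD : ContDiffOn ℝ n (pD F) (U ×ˢ (univ : Set ℝ)) := by
      have h2 : ContDiffOn ℝ n (fderiv ℝ F) (U ×ˢ (univ : Set ℝ)) :=
        hF'.fderiv_of_isOpen hO le_rfl
      exact h2.clm_comp contDiffOn_const
    have hder : ∀ x ∈ U, HasFDerivAt (fun x => ∫ θ in a..b, F (x, θ))
        (∫ θ in a..b, pD F (x, θ)) x := fun x hx => pari_deriv a b hU h1 hx
    have key : ContDiffOn ℝ ((n : ℕ∞ω) + 1) (fun x => ∫ θ in a..b, F (x, θ)) U := by
      rw [contDiffOn_succ_iff_fderiv_of_isOpen hU]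
      refine ⟨fun x hx => (hder x hx).differentiableAt.differentiableWithinAt, ?_, ?_⟩
      · intro h
        exact absurd h (by simp)
      · refine (ih (pD F) hD).congr ?_
        intro x hx
        exact (hder x hx).fderiv
    simpa using key

theorem pari : S_PARI := by
  intro E _ _ U F a b hU hF
  rw [contDiffOn_infty]
  intro n
  refine pari_nat a b hU n F ?_
  exact (contDiffOn_infty.mp hF) n

end Pool.Agent.Helper75.AB
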