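import Pool.Agent.Helper24.AB.AN.Goals

/-! # Project AB, packet DOM: elementary properties of the domain of `D` -/

open MeasureTheory Set Filter Topology
open scoped ContDiff ENNReal

noncomputable section

namespace Pool.Agent.Helper75.AB

open Pool.Agent.Helper24.AB

theorem isOpen_strip (a : ℝ) : IsOpen (strip a) :=
  isOpen_lt (continuous_abs.comp Complex.continuous_re) continuous_const

/-! ### calculus of `dz` -/

theorem dz_lin {f g : ℂ → ℂ} {w : ℂ} (c c' : ℂ) (hf : DifferentiableAt ℝ f w)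
    (hg : DifferentiableAt ℝ g w) :
    dz (fun w => c * f w + c' * g w) w = c * dz f w + c' * dz g w := by
  have h : fderiv ℝ (fun w => c * f w + c' * g w) w = c • fderiv ℝ f w + c' • fderiv ℝ g w :=
    ((hf.hasFDerivAt.const_mul c).fun_add (hg.hasFDerivAt.const_mul c')).fderiv
  simp only [dz, dS, dT, h, _root_.add_apply, _root_.smul_apply, smul_eq_mul]
  ring

theorem dz_mul {f g : ℂ → ℂ} {w : ℂ} (hf : DifferentiableAt ℝ f w)
    (hg : DifferentiableAt ℝ g w) :
    dz (fun w => f w * g w) w = f w * dz g w + dz f w * g w := by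
  have h : fderiv ℝ (fun w => f w * g w) w = f w • fderiv ℝ g w + g w • fderiv ℝ f w :=
    (hf.hasFDerivAt.fun_mul hg.hasFDerivAt).fderiv
  simp only [dz, dS, dT, h, _root_.add_apply, _root_.smul_apply, smul_eq_mul]
  ring

theorem dz_measurable (f : ℂ → ℂ) : Measurable (dz f) := by
  have h1 : Measurable (dS f) := measurable_fderiv_apply_const ℝ f 1
  have h2 : Measurable (dT f) := measurable_fderiv_apply_const ℝ f Complex.I
  exact (h1.sub (measurable_const.mul h2)).div_const 2

theorem test_diff {a : ℝ} {φ : ℂ → ℂ} (h : IsTest a φ) (w : ℂ) : DifferentiableAt ℝ φ w :=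
  h.1.differentiable (by simp) w

theorem Dop_meas {a : ℝ} {φ : ℂ → ℂ} (Φ : ℂ → ℝ) (h : IsTest a φ) : Measurable (Dop Φ φ) := by
  have h1 := dz_measurable φ
  have h2 := dz_measurable (fun w => (Φ w : ℂ))
  exact h1.neg.add (h2.mul h.1.continuous.measurable)

theorem dz_cont {φ : ℂ → ℂ} (h : ContDiff ℝ ∞ φ) : Continuous (dz φ) := by
  have h1 : Continuous (fderiv ℝ φ) := h.continuous_fderiv (by simp)
  have h2 : Continuous (dS φ) := h1.clm_apply continuous_const
  have h3 : Continuous (dT φ) := h1.clm_apply continuous_const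
  exact (h2.sub (continuous_const.mul h3)).div_const 2

/-! ### test functions -/

theorem test_lin {a : ℝ} {φ φ' : ℂ → ℂ} (c c' : ℂ) (h : IsTest a φ) (h' : IsTest a φ') :
    IsTest a (fun w => c * φ w + c' * φ' w) := by
  refine ⟨(contDiff_const.mul h.1).add (contDiff_const.mul h'.1),
    (h.2.1.mul_left).add (h'.2.1.mul_left), ?_⟩
  refine (tsupport_add _ _).trans (union_subset ?_ ?_)
  · exact (tsupport_mul_subset_right).trans h.2.2
  · exact (tsupport_mul_subset_right).trans h'.2.2

theorem test_mul {a : ℝ} {φ m : ℂ → ℂ} (hm : ContDiff ℝ ∞ m) (h : IsTest a φ) :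
    IsTest a (fun w => m w * φ w) :=
  ⟨hm.mul h.1, h.2.1.mul_left, (tsupport_mul_subset_right).trans h.2.2⟩

theorem Dop_lin {a : ℝ} {φ φ' : ℂ → ℂ} (Φ : ℂ → ℝ) (c c' : ℂ) (h : IsTest a φ)
    (h' : IsTest a φ') (w : ℂ) :
    Dop Φ (fun w => c * φ w + c' * φ' w) w = c * Dop Φ φ w + c' * Dop Φ φ' w := by
  unfold Dop
  rw [dz_lin c c' (test_diff h w) (test_diff h' w)]
  ring

theorem Dop_mul {a : ℝ} {φ m : ℂ → ℂ} (Φ : ℂ → ℝ) (hm : ContDiff ℝ ∞ m) (h : IsTest a φ) (w : ℂ) :
    Dop Φ (fun w => m w * φ w) w = m w * Dop Φ φ w - dz m w * φ w := by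
  unfold Dop
  rw [dz_mul (hm.differentiable (by simp) w) (test_diff h w)]
  ring

/-! ### norms -/

variable {μ : Measure ℂ}

theorem norm_mul_le_bdd {f g : ℂ → ℂ} {B : ℝ} (hB : ∀ w, ‖f w‖ ≤ B) :
    eLpNorm (fun w => f w * g w) 2 μ ≤ ENNReal.ofReal B * eLpNorm g 2 μ := by
  apply eLpNorm_le_mul_eLpNorm_of_ae_le_mul
  refine Eventually.of_forall fun w => ?_
  rw [norm_mul]
  exact mul_le_mul_of_nonneg_right (hB w) (norm_nonneg _)

theorem tendsto_lin {f g : ℕ → ℂ → ℂ} (c c' : ℂ) (hf : ∀ n, AEStronglyMeasurable (f n) μ)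
    (hg : ∀ n, AEStronglyMeasurable (g n) μ) (h1 : Tendsto (fun n => eLpNorm (f n) 2 μ) atTop (𝓝 0))
    (h2 : Tendsto (fun n => eLpNorm (g n) 2 μ) atTop (𝓝 0)) :
    Tendsto (fun n => eLpNorm (fun w => c * f n w + c' * g n w) 2 μ) atTop (𝓝 0) := by
  have e1 : Tendsto (fun n => ENNReal.ofReal ‖c‖ * eLpNorm (f n) 2 μ) atTop (𝓝 0) := by
    have := ENNReal.Tendsto.const_mul (a := ENNReal.ofReal ‖c‖) h1 (Or.inr ENNReal.ofReal_ne_top)
    simpa using this
  have e2 : Tendsto (fun n => ENNReal.ofReal ‖c'‖ * eLpNorm (g n) 2 μ) atTop (𝓝 0) := by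
    have := ENNReal.Tendsto.const_mul (a := ENNReal.ofReal ‖c'‖) h2 (Or.inr ENNReal.ofReal_ne_top)
    simpa using this
  have e3 := e1.add e2
  rw [add_zero] at e3
  refine tendsto_of_tendsto_of_tendsto_of_le_of_le tendsto_const_nhds e3 (fun _ => zero_le) ?_
  intro n
  refine (eLpNorm_add_le (aestronglyMeasurable_const.mul (hf n))
    (aestronglyMeasurable_const.mul (hg n)) (by norm_num)).trans ?_
  exact add_le_add (norm_mul_le_bdd fun _ => le_rfl) (norm_mul_le_bdd fun _ => le_rfl)

/-- (5) a test function is in the domain -/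
theorem test_inDom {a : ℝ} {Φ : ℂ → ℝ} (hΦ : ContDiffOn ℝ ∞ Φ (strip a)) {φ : ℂ → ℂ}
    (h : IsTest a φ) : InDom a Φ φ (Dop Φ φ) := by
  have hK : IsCompact (tsupport φ) := h.2.1
  have hfin : IsFiniteMeasure ((muS a).restrict (tsupport φ)) := by
    constructor
    rw [Measure.restrict_apply_univ]
    exact (Measure.restrict_apply_le _ _).trans_lt hK.measure_lt_top
  have memK : ∀ f : ℂ → ℂ, AEStronglyMeasurable f (muS a) → ContinuousOn f (tsupport φ) →
      (∀ w, w ∉ tsupport φ → f w = 0) → MemLp f 2 (muS a) := by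
    intro f hm hf h0
    obtain ⟨C, hC⟩ := hK.exists_bound_of_continuousOn hf
    have e : f = (tsupport φ).indicator f := by
      funext w
      by_cases hw : w ∈ tsupport φ
      · rw [indicator_of_mem hw]
      · rw [indicator_of_notMem hw, h0 w hw]
    rw [e, memLp_indicator_iff_restrict hK.measurableSet]
    refine MemLp.of_bound (hm.mono_measure Measure.restrict_le_self) C ?_
    rw [ae_restrict_iff' hK.measurableSet]
    exact Eventually.of_forall hC
  have z1 : ∀ w, w ∉ tsupport φ → φ w = 0 := fun w hw => image_eq_zero_of_notMem_tsupport hw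
  have z2 : ∀ w, w ∉ tsupport φ → dz φ w = 0 := by
    intro w hw
    have h1 : φ =ᶠ[𝓝 w] 0 := notMem_tsupport_iff_eventuallyEq.mp hw
    have h2 : fderiv ℝ φ w = 0 := by
      rw [h1.fderiv_eq]
      simp
    simp [dz, dS, dT, h2]
  have hdΦ : ContinuousOn (dz fun w => (Φ w : ℂ)) (strip a) := by
    have h1 : ContDiffOn ℝ ∞ (fun w => (Φ w : ℂ)) (strip a) :=
      (Complex.ofRealCLM.contDiff).comp_contDiffOn hΦ
    have h2 : ContinuousOn (fderiv ℝ (fun w => (Φ w : ℂ))) (strip a) :=
      h1.continuousOn_fderiv_of_isOpen (isOpen_strip a) (by simp)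
    have h3 : ContinuousOn (dS fun w => (Φ w : ℂ)) (strip a) := h2.clm_apply continuousOn_const
    have h4 : ContinuousOn (dT fun w => (Φ w : ℂ)) (strip a) := h2.clm_apply continuousOn_const
    exact (h3.sub (continuousOn_const.mul h4)).div_const 2
  have m1 : MemLp φ 2 (muS a) :=
    memK φ h.1.continuous.aestronglyMeasurable h.1.continuous.continuousOn z1
  have m2 : MemLp (Dop Φ φ) 2 (muS a) := by
    refine memK _ (Dop_meas Φ h).aestronglyMeasurable ?_ ?_
    · exact (dz_cont h.1).neg.continuousOn.add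
        ((hdΦ.mono h.2.2).mul h.1.continuous.continuousOn)
    · intro w hw
      unfold Dop
      rw [z1 w hw, z2 w hw]
      simp
  refine ⟨m1, m2, fun _ => φ, fun _ => h, ?_, ?_⟩
  · simp
  · simp

/-- (DOM) -/
theorem dom : S_DOM := by
  intro a Φ ha hΦ
  refine ⟨?_, ?_, ?_, ?_⟩
  · rintro z y z' y' c c' ⟨mz, my, φ, hφ, t1, t2⟩ ⟨mz', my', φ', hφ', t1', t2'⟩
    refine ⟨(mz.const_mul c).add (mz'.const_mul c'), (my.const_mul c).add (my'.const_mul c'),
      fun n w => c * φ n w + c' * φ' n w, fun n => test_lin c c' (hφ n) (hφ' n), ?_, ?_⟩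
    · have h := tendsto_lin c c'
        (fun n => (hφ n).1.continuous.aestronglyMeasurable.sub mz.1)
        (fun n => (hφ' n).1.continuous.aestronglyMeasurable.sub mz'.1) t1 t1'
      refine h.congr fun n => ?_
      congr 1
      funext w
      simp only [Pi.sub_apply]
      ring
    · have h := tendsto_lin c c'
        (fun n => (Dop_meas Φ (hφ n)).aestronglyMeasurable.sub my.1)
        (fun n => (Dop_meas Φ (hφ' n)).aestronglyMeasurable.sub my'.1) t2 t2'
      refine h.congr fun n => ?_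
      congr 1
      funext w
      rw [Dop_lin Φ c c' (hφ n) (hφ' n)]
      simp only [Pi.sub_apply]
      ring
  · rintro m B z y hm hB ⟨mz, my, φ, hφ, t1, t2⟩
    have hmm : AEStronglyMeasurable m (muS a) := hm.continuous.aestronglyMeasurable
    have hdm : AEStronglyMeasurable (dz m) (muS a) := (dz_measurable m).aestronglyMeasurable
    have bmem : ∀ f g : ℂ → ℂ, AEStronglyMeasurable f (muS a) → (∀ w, ‖f w‖ ≤ B) →
        MemLp g 2 (muS a) → MemLp (fun w => f w * g w) 2 (muS a) := by
      intro f g hf hfB hg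
      refine hg.of_le_mul (c := B) (hf.mul hg.1) (Eventually.of_forall fun w => ?_)
      rw [norm_mul]
      exact mul_le_mul_of_nonneg_right (hfB w) (norm_nonneg _)
    have tb : ∀ (f : ℂ → ℂ) (g : ℕ → ℂ → ℂ), (∀ w, ‖f w‖ ≤ B) →
        Tendsto (fun n => eLpNorm (g n) 2 (muS a)) atTop (𝓝 0) →
        Tendsto (fun n => eLpNorm (fun w => f w * g n w) 2 (muS a)) atTop (𝓝 0) := by
      intro f g hf hg
      have e1 : Tendsto (fun n => ENNReal.ofReal B * eLpNorm (g n) 2 (muS a)) atTop (𝓝 0) := by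
        have := ENNReal.Tendsto.const_mul (a := ENNReal.ofReal B) hg
          (Or.inr ENNReal.ofReal_ne_top)
        simpa using this
      exact tendsto_of_tendsto_of_tendsto_of_le_of_le tendsto_const_nhds e1 (fun _ => zero_le)
        (fun n => norm_mul_le_bdd hf)
    refine ⟨bmem m z hmm (fun w => (hB w).1) mz,
      (bmem m y hmm (fun w => (hB w).1) my).sub (bmem (dz m) z hdm (fun w => (hB w).2) mz),
      fun n w => m w * φ n w, fun n => test_mul hm (hφ n), ?_, ?_⟩
    · refine (tb m _ (fun w => (hB w).1) t1).congr fun n => ?_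
      congr 1
      funext w
      ring
    · have h := tendsto_lin (μ := muS a) 1 (-1)
        (f := fun n w => m w * (Dop Φ (φ n) w - y w)) (g := fun n w => dz m w * (φ n w - z w))
        (fun n => hmm.mul ((Dop_meas Φ (hφ n)).aestronglyMeasurable.sub my.1))
        (fun n => hdm.mul ((hφ n).1.continuous.aestronglyMeasurable.sub mz.1))
        (tb m _ (fun w => (hB w).1) t2) (tb (dz m) _ (fun w => (hB w).2) t1)
      refine h.congr fun n => ?_
      congr 1
      funext w
      rw [Dop_mul Φ hm (hφ n)]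
      ring
  · intro zn yn z y hn mz my tz ty
    -- choice of the approximations
    have hch : ∀ n : ℕ, ∃ φ : ℂ → ℂ, IsTest a φ ∧
        eLpNorm (fun w => φ w - zn n w) 2 (muS a) < ENNReal.ofReal (1 / ((n : ℝ) + 1)) ∧
        eLpNorm (fun w => Dop Φ φ w - yn n w) 2 (muS a) < ENNReal.ofReal (1 / ((n : ℝ) + 1)) := by
      intro n
      obtain ⟨_, _, φ, hφ, t1, t2⟩ := hn n
      have hpos : 0 < ENNReal.ofReal (1 / ((n : ℝ) + 1)) := by
        rw [ENNReal.ofReal_pos]
        positivity
      have h1 := t1.eventually (gt_mem_nhds hpos)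
      have h2 := t2.eventually (gt_mem_nhds hpos)
      obtain ⟨k, hk1, hk2⟩ := (h1.and h2).exists
      exact ⟨φ k, hφ k, hk1, hk2⟩
    choose ψ hψ h1 h2 using hch
    have hlim : Tendsto (fun n : ℕ => ENNReal.ofReal (1 / ((n : ℝ) + 1))) atTop (𝓝 0) := by
      have := ENNReal.tendsto_ofReal tendsto_one_div_add_atTop_nhds_zero_nat
      simpa using this
    refine ⟨mz, my, ψ, hψ, ?_, ?_⟩
    · have hl := hlim.add tz
      rw [add_zero] at hl
      refine tendsto_of_tendsto_of_tendsto_of_le_of_le tendsto_const_nhds hl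
        (fun _ => zero_le) ?_
      intro n
      have e : (fun w => ψ n w - z w) = (fun w => ψ n w - zn n w) + fun w => zn n w - z w := by
        funext w
        simp
      change eLpNorm (fun w => ψ n w - z w) 2 (muS a) ≤ _
      rw [e]
      refine (eLpNorm_add_le ((hψ n).1.continuous.aestronglyMeasurable.sub (hn n).memz.1)
        ((hn n).memz.1.sub mz.1) (by norm_num)).trans ?_
      exact add_le_add (h1 n).le le_rfl
    · have hl := hlim.add ty
      rw [add_zero] at hl
      refine tendsto_of_tendsto_of_tendsto_of_le_of_le tendsto_const_nhds hl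
        (fun _ => zero_le) ?_
      intro n
      have e : (fun w => Dop Φ (ψ n) w - y w) =
          (fun w => Dop Φ (ψ n) w - yn n w) + fun w => yn n w - y w := by
        funext w
        simp
      change eLpNorm (fun w => Dop Φ (ψ n) w - y w) 2 (muS a) ≤ _
      rw [e]
      refine (eLpNorm_add_le ((Dop_meas Φ (hψ n)).aestronglyMeasurable.sub (hn n).memy.1)
        ((hn n).memy.1.sub my.1) (by norm_num)).trans ?_
      exact add_le_add (h2 n).le le_rfl
  · intro φ h
    exact test_inDom hΦ h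

end Pool.Agent.Helper75.AB
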